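import Pool.Agent.T9h77.Bar2Fam

/-!
# The maximum number of edges of a bar 2-visibility graph

For every `n`, the largest number of edges of a bar 2-visibility graph on `n` vertices is
`n (n - 1) / 2` if `n ≤ 12` and `9 n - 42` if `n ≥ 12`.

Upper bound: a minimal counterexample has minimum degree at least ten; the number of pairs seen
during a left-to-right sweep is then controlled by two potentials, attached to the three top and
the three bottom bars of the first six bars, and by the symmetric potentials of the last six bars.
Lower bound: an explicit family, `K₁₂` followed by a staircase in which every further bar sees the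
three previous ones and six fixed bars.
-/

namespace Pool.Agent.Results.MP_4dedcc_co.BarTwoVisibilityExact

open Pool.Agent.T9h77.Bar2

/-- For every `n`, the maximum number of edges of a bar 2-visibility graph with `n` vertices is
`n (n - 1) / 2` if `n ≤ 12` and `9 n - 42` otherwise. -/
theorem result (n : ℕ) :
    IsGreatest {m : ℕ | ∃ G : SimpleGraph (Fin n), IsBarVis 2 G ∧ G.edgeSet.ncard = m}
      (if n ≤ 12 then n * (n - 1) / 2 else 9 * n - 42) := by
  have hup : ∀ G : SimpleGraph (Fin n), IsBarVis 2 G →
      G.edgeSet.ncard ≤ (if n ≤ 12 then n * (n - 1) / 2 else 9 * n - 42) := by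
    intro G hG
    split_ifs with h
    · exact ncard_le_choose G
    · have := edges_le (by omega) G hG
      omega
  constructor
  · rcases le_total n 12 with h | h
    · refine ⟨famG 12 (le_refl _) n, famG_isBarVis 12 (le_refl _) n h, le_antisymm ?_ ?_⟩
      · exact hup _ (famG_isBarVis 12 (le_refl _) n h)
      · rw [if_pos h, ← sum_nb_small n h]
        exact famG_card 12 (le_refl _) n h
    · refine ⟨famG n h n, famG_isBarVis n h n (le_refl _), le_antisymm ?_ ?_⟩
      · exact hup _ (famG_isBarVis n h n (le_refl _))
      · have h1 := famG_card n h n (le_refl _)
        rw [sum_nb n h] at h1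
        refine le_trans ?_ h1
        split_ifs with h2
        · have : n = 12 := le_antisymm h2 h
          subst this
          decide
        · exact le_refl _
  · rintro m ⟨G, hG, rfl⟩
    exact hup G hG

end Pool.Agent.Results.MP_4dedcc_co.BarTwoVisibilityExact
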